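import Pool.Agent.Helper15.UH.Goals

/-!
Packet CUP of MP_ba83fc_ag: cochain identities for cup products of four characters.
-/

namespace UnrCoh

namespace Cup88

variable {G : Type} [Group G]

theorem neg_eq : ∀ x : ZMod 2, -x = x := by decide

theorem two_eq : (2 : ZMod 2) = 0 := by decide

/-- the 3-cochain `a ⊗ b ⊗ c` -/
def tri (a b c : G → ZMod 2) : (Fin 3 → G) → ZMod 2 := fun g => a (g 0) * b (g 1) * c (g 2)

/-- the 3-cochain `F(g₀,g₁,g₂) = a(g₀) b(g₁) c(g₂)`, explicit differential -/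
theorem diff_tri [TopologicalSpace G] (a b c : G → ZMod 2) (g : Fin 4 → G) :
    diff G 2 3 (tri a b c) g =
      a (g 1) * b (g 2) * c (g 3) + a (g 0 * g 1) * b (g 2) * c (g 3) +
      a (g 0) * b (g 1 * g 2) * c (g 3) + a (g 0) * b (g 1) * c (g 2 * g 3) +
      a (g 0) * b (g 1) * c (g 2) := by
  simp [diff, tri, Fin.sum_univ_succ, Fin.contractNth]
  ring

theorem diff_cup4 [TopologicalSpace G] (a b c d : G → ZMod 2) (g : Fin 5 → G) :
    diff G 2 4 (cup4 a b c d) g =
      a (g 1) * b (g 2) * c (g 3) * d (g 4) + a (g 0 * g 1) * b (g 2) * c (g 3) * d (g 4) +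
      a (g 0) * b (g 1 * g 2) * c (g 3) * d (g 4) + a (g 0) * b (g 1) * c (g 2 * g 3) * d (g 4) +
      a (g 0) * b (g 1) * c (g 2) * d (g 3 * g 4) + a (g 0) * b (g 1) * c (g 2) * d (g 3) := by
  simp [diff, cup4, Fin.sum_univ_succ, Fin.contractNth]
  ring

theorem lc_mul {X : Type*} [TopologicalSpace X] {f g : X → ZMod 2} (hf : IsLocallyConstant f)
    (hg : IsLocallyConstant g) : IsLocallyConstant (fun x => f x * g x) := hf.mul hg

omit [Group G] in
theorem lc_tri [TopologicalSpace G] {a b c : G → ZMod 2} (ha : IsLocallyConstant a)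
    (hb : IsLocallyConstant b) (hc : IsLocallyConstant c) :
    tri a b c ∈ cochains G 2 3 := by
  have h0 : IsLocallyConstant (fun g : Fin 3 → G => a (g 0)) :=
    ha.comp_continuous (continuous_apply 0)
  have h1 : IsLocallyConstant (fun g : Fin 3 → G => b (g 1)) :=
    hb.comp_continuous (continuous_apply 1)
  have h2 : IsLocallyConstant (fun g : Fin 3 → G => c (g 2)) :=
    hc.comp_continuous (continuous_apply 2)
  exact lc_mul (lc_mul h0 h1) h2

omit [Group G] in
theorem lc_cup4 [TopologicalSpace G] {a b c d : G → ZMod 2} (ha : IsLocallyConstant a)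
    (hb : IsLocallyConstant b) (hc : IsLocallyConstant c) (hd : IsLocallyConstant d) :
    cup4 a b c d ∈ cochains G 2 4 := by
  have h0 : IsLocallyConstant (fun g : Fin 4 → G => a (g 0)) :=
    ha.comp_continuous (continuous_apply 0)
  have h1 : IsLocallyConstant (fun g : Fin 4 → G => b (g 1)) :=
    hb.comp_continuous (continuous_apply 1)
  have h2 : IsLocallyConstant (fun g : Fin 4 → G => c (g 2)) :=
    hc.comp_continuous (continuous_apply 2)
  have h3 : IsLocallyConstant (fun g : Fin 4 → G => d (g 3)) :=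
    hd.comp_continuous (continuous_apply 3)
  exact lc_mul (lc_mul (lc_mul h0 h1) h2) h3

theorem mem_cob [TopologicalSpace G] {f : (Fin 4 → G) → ZMod 2} {F : (Fin 3 → G) → ZMod 2}
    (hF : F ∈ cochains G 2 3) (h : ∀ g, f g = diff G 2 3 F g) : f ∈ coboundaries G 2 4 := by
  refine ⟨F, hF, ?_⟩
  funext g
  exact (h g).symm

theorem cup4_mem_cocycles [TopologicalSpace G] {a b c d : G → ZMod 2}
    (ha : IsLocallyConstant a) (hb : IsLocallyConstant b) (hc : IsLocallyConstant c)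
    (hd : IsLocallyConstant d)
    (ha' : ∀ g h, a (g * h) = a g + a h) (hb' : ∀ g h, b (g * h) = b g + b h)
    (hc' : ∀ g h, c (g * h) = c g + c h) (hd' : ∀ g h, d (g * h) = d g + d h) :
    cup4 a b c d ∈ cocycles G 2 4 := by
  refine ⟨lc_cup4 ha hb hc hd, ?_⟩
  change diff G 2 4 (cup4 a b c d) = 0
  funext g
  rw [diff_cup4, ha', hb', hc', hd', Pi.zero_apply]
  linear_combination (a (g 1) * b (g 2) * c (g 3) * d (g 4) + a (g 0) * b (g 2) * c (g 3) * d (g 4)
    + a (g 0) * b (g 1) * c (g 3) * d (g 4) + a (g 0) * b (g 1) * c (g 2) * d (g 4)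
    + a (g 0) * b (g 1) * c (g 2) * d (g 3)) * two_eq

theorem cup4_norm [TopologicalSpace G] {a b c d : G → ZMod 2}
    (hc : IsLocallyConstant c) (hd : IsLocallyConstant d)
    (hc' : ∀ g h, c (g * h) = c g + c h) (hd' : ∀ g h, d (g * h) = d g + d h)
    {p : G → ZMod 2} (hp : IsLocallyConstant p) (h : ∀ x y, a x * b y = p x + p y + p (x * y)) :
    cup4 a b c d ∈ coboundaries G 2 4 := by
  refine mem_cob (lc_tri hp hc hd) fun g => ?_
  rw [diff_tri, hc', hd']
  simp only [cup4]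
  rw [h]
  linear_combination -(p (g 0) * c (g 1) * d (g 3) + p (g 0) * c (g 1) * d (g 2)) * two_eq

theorem cup4_swap1 [TopologicalSpace G] {a b c d : G → ZMod 2}
    (ha : IsLocallyConstant a) (hb : IsLocallyConstant b)
    (hc : IsLocallyConstant c) (hd : IsLocallyConstant d)
    (ha' : ∀ g h, a (g * h) = a g + a h) (hb' : ∀ g h, b (g * h) = b g + b h)
    (hc' : ∀ g h, c (g * h) = c g + c h) (hd' : ∀ g h, d (g * h) = d g + d h) :
    cup4 a b c d - cup4 b a c d ∈ coboundaries G 2 4 := by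
  refine mem_cob (lc_tri (lc_mul ha hb) hc hd) fun g => ?_
  rw [diff_tri, hc', hd', ha', hb']
  simp only [cup4, Pi.sub_apply]
  linear_combination -(a (g 0) * b (g 0) * c (g 1) * d (g 3) + a (g 0) * b (g 0) * c (g 1) * d (g 2)
    + a (g 1) * b (g 1) * c (g 2) * d (g 3) + a (g 0) * b (g 0) * c (g 2) * d (g 3)
    + a (g 1) * b (g 0) * c (g 2) * d (g 3)) * two_eq

theorem cup4_swap2 [TopologicalSpace G] {a b c d : G → ZMod 2}
    (ha : IsLocallyConstant a) (hb : IsLocallyConstant b)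
    (hc : IsLocallyConstant c) (hd : IsLocallyConstant d)
    (ha' : ∀ g h, a (g * h) = a g + a h) (hb' : ∀ g h, b (g * h) = b g + b h)
    (hc' : ∀ g h, c (g * h) = c g + c h) (hd' : ∀ g h, d (g * h) = d g + d h) :
    cup4 a b c d - cup4 a c b d ∈ coboundaries G 2 4 := by
  refine mem_cob (lc_tri ha (lc_mul hb hc) hd) fun g => ?_
  rw [diff_tri, hc', hd', ha', hb']
  simp only [cup4, Pi.sub_apply]
  linear_combination -(a (g 1) * b (g 2) * c (g 2) * d (g 3) + a (g 0) * b (g 2) * c (g 2) * d (g 3)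
    + a (g 0) * b (g 1) * c (g 1) * d (g 3) + a (g 0) * b (g 2) * c (g 1) * d (g 3)
    + a (g 0) * b (g 1) * c (g 1) * d (g 2)) * two_eq

theorem cup4_swap3 [TopologicalSpace G] {a b c d : G → ZMod 2}
    (ha : IsLocallyConstant a) (hb : IsLocallyConstant b)
    (hc : IsLocallyConstant c) (hd : IsLocallyConstant d)
    (ha' : ∀ g h, a (g * h) = a g + a h) (hb' : ∀ g h, b (g * h) = b g + b h)
    (hc' : ∀ g h, c (g * h) = c g + c h) (hd' : ∀ g h, d (g * h) = d g + d h) :
    cup4 a b c d - cup4 a b d c ∈ coboundaries G 2 4 := by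
  refine mem_cob (lc_tri ha hb (lc_mul hc hd)) fun g => ?_
  rw [diff_tri, hc', hd', ha', hb']
  simp only [cup4, Pi.sub_apply]
  linear_combination -(a (g 1) * b (g 2) * c (g 3) * d (g 3) + a (g 0) * b (g 2) * c (g 3) * d (g 3)
    + a (g 0) * b (g 1) * c (g 3) * d (g 3) + a (g 0) * b (g 1) * c (g 2) * d (g 2)
    + a (g 0) * b (g 1) * c (g 3) * d (g 2)) * two_eq

end Cup88

open Cup88 in
theorem cup88 : S_CUP := by
  intro G _ _ _ χ hl ha
  refine ⟨cup4_mem_cocycles (hl 0) (hl 1) (hl 2) (hl 3) (ha 0) (ha 1) (ha 2) (ha 3),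
    cup4_swap1 (hl 0) (hl 1) (hl 2) (hl 3) (ha 0) (ha 1) (ha 2) (ha 3),
    cup4_swap2 (hl 0) (hl 1) (hl 2) (hl 3) (ha 0) (ha 1) (ha 2) (ha 3),
    cup4_swap3 (hl 0) (hl 1) (hl 2) (hl 3) (ha 0) (ha 1) (ha 2) (ha 3), ?_⟩
  intro p hp h
  exact cup4_norm (hl 2) (hl 3) (ha 2) (ha 3) hp h

end UnrCoh
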